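import Pool.Graph.R_pool_sql_team_seeded_620a6dc7.H297.QL.Free

/-!
# Descending a pair (additive map, quadratic map) to the lower central quotients of degree 1 and 2
-/

set_option autoImplicit false

open scoped commutatorElement

noncomputable section

namespace Pool.Agent.H355.QP927

open Pool.Agent.H297.QL (Gr GrM gam cl gbr gbr_cl exists_cl comm_mem cl_add)

/-- a homomorphism on `Γ_k` which vanishes on `Γ_{k+1}` -/
theorem exists_desc {G : Type} [Group G] {N : Type} [AddCommGroup N] (k : ℕ) (f : G → N)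
    (hm : ∀ x ∈ gam G k, ∀ y ∈ gam G k, f (x * y) = f x + f y)
    (h0 : ∀ x ∈ gam G (k + 1), f x = 0) :
    ∃ φ : Gr G k →+ N, ∀ (g : G) (hg : g ∈ gam G k), φ (cl k g hg) = f g := by
  have hone : f 1 = 0 := by
    have h := hm 1 (Subgroup.one_mem _) 1 (Subgroup.one_mem _)
    rw [mul_one] at h
    exact left_eq_add.mp h
  let F : gam G k →* Multiplicative N :=
    { toFun := fun z => Multiplicative.ofAdd (f z.1)
      map_one' := by
        change Multiplicative.ofAdd (f 1) = 1
        rw [hone]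
        rfl
      map_mul' := fun z w => by
        rw [Subgroup.coe_mul, hm _ z.2 _ w.2]
        rfl }
  have hF : ∀ x ∈ (gam G (k + 1)).subgroupOf (gam G k), F x = 1 := by
    intro x hx
    rw [Subgroup.mem_subgroupOf] at hx
    change Multiplicative.ofAdd (f x.1) = 1
    rw [h0 _ hx]
    rfl
  refine ⟨AddMonoidHom.mk' (fun a => Multiplicative.toAdd
    (QuotientGroup.lift ((gam G (k + 1)).subgroupOf (gam G k)) F hF (Additive.toMul a)))
    (fun a b => by
      rw [← toAdd_mul]
      congr 1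
      exact map_mul _ _ _), fun g hg => rfl⟩

/-- the general principle -/
theorem descend {G : Type} [Group G] {V N : Type} [AddCommGroup V] [LieRing N]
    (A : G → V) (M : G → N) (C : V → V → N) (P : V → N)
    (hP : ∀ v w, P (v + w) = P v + P w)
    (hA : ∀ g g', A (g * g') = A g + A g')
    (hM : ∀ g g', M (g * g') = M g + M g' + C (A g) (A g'))
    (h0 : ∀ v, C 0 v = 0)
    (hC : ∀ g g', C (A g) (A g') - C (A g') (A g) = ⁅P (A g), P (A g')⁆) :
    ∃ (φ₁ : Gr G 1 →+ N) (φ₂ : Gr G 2 →+ N),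
      (∀ a b : Gr G 1, φ₂ (gbr a b) = ⁅φ₁ a, φ₁ b⁆) ∧
      ∀ g : G, φ₁ (cl 1 g (Subgroup.mem_top _)) = P (A g) := by
  have hA1 : A 1 = 0 := by
    have h := hA 1 1
    rw [mul_one] at h
    exact left_eq_add.mp h
  have hP0 : P 0 = 0 := by
    have h := hP 0 0
    rw [add_zero] at h
    exact left_eq_add.mp h
  have hM1 : M 1 = 0 := by
    have h := hM 1 1
    rw [mul_one, hA1, h0, add_zero] at h
    exact left_eq_add.mp h
  have hAc : ∀ g g' : G, A ⁅g, g'⁆ = 0 := by
    intro g g'
    have e : g * g' = ⁅g, g'⁆ * (g' * g) := by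
      rw [commutatorElement_def]
      group
    have h := congrArg A e
    rw [hA, hA, hA, add_comm (A g)] at h
    exact left_eq_add.mp (h.trans (add_comm _ _))
  have hMc : ∀ g g' : G, M ⁅g, g'⁆ = ⁅P (A g), P (A g')⁆ := by
    intro g g'
    have e : g * g' = ⁅g, g'⁆ * (g' * g) := by
      rw [commutatorElement_def]
      group
    have h := congrArg M e
    rw [hM, hM ⁅g, g'⁆, hAc, h0, hM] at h
    rw [← hC]
    have h2 : M ⁅g, g'⁆ = (M g + M g' + C (A g) (A g')) - (M g' + M g + C (A g') (A g)) := by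
      rw [h]
      abel
    rw [h2]
    abel
  -- on `Γ_2`
  have hA2 : ∀ g ∈ gam G 2, A g = 0 := by
    intro g hg
    let K : Subgroup G :=
      { carrier := {x | A x = 0}
        one_mem' := hA1
        mul_mem' := fun {a b} ha hb => by
          change A (a * b) = 0
          rw [hA, show A a = 0 from ha, show A b = 0 from hb, add_zero]
        inv_mem' := fun {a} ha => by
          change A a⁻¹ = 0
          have h := hA a a⁻¹
          rw [mul_inv_cancel, hA1, show A a = 0 from ha, zero_add] at h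
          exact h.symm }
    have h : gam G 2 ≤ K := by
      change ⁅gam G 1, (⊤ : Subgroup G)⁆ ≤ K
      rw [Subgroup.commutator_le]
      intro x _ y _
      exact hAc x y
    exact h hg
  have hM3 : ∀ g ∈ gam G 3, M g = 0 := by
    intro g hg
    let K : Subgroup G :=
      { carrier := {x | A x = 0 ∧ M x = 0}
        one_mem' := ⟨hA1, hM1⟩
        mul_mem' := fun {a b} ha hb => by
          obtain ⟨ha1, ha2⟩ := ha
          obtain ⟨hb1, hb2⟩ := hb
          refine ⟨?_, ?_⟩
          · rw [hA, ha1, hb1, add_zero]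
          · rw [hM, ha1, ha2, hb2, h0, add_zero, add_zero]
        inv_mem' := fun {a} ha => by
          obtain ⟨ha1, ha2⟩ := ha
          have h := hA a a⁻¹
          rw [mul_inv_cancel, hA1, ha1, zero_add] at h
          have h' := hM a a⁻¹
          rw [mul_inv_cancel, hM1, ha1, ha2, h0, zero_add, add_zero] at h'
          exact ⟨h.symm, h'.symm⟩ }
    have h : gam G 3 ≤ K := by
      change ⁅gam G 2, (⊤ : Subgroup G)⁆ ≤ K
      rw [Subgroup.commutator_le]
      intro x hx y _
      refine ⟨hAc x y, ?_⟩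
      rw [hMc, hA2 x hx, hP0, zero_lie]
    exact (h hg).2
  obtain ⟨φ₁, h₁⟩ := exists_desc (G := G) (N := N) 1 (fun g => P (A g))
    (fun x _ y _ => by rw [hA, hP])
    (fun x hx => by rw [hA2 x hx, hP0])
  obtain ⟨φ₂, h₂⟩ := exists_desc (G := G) (N := N) 2 M
    (fun x hx y _ => by rw [hM, hA2 x hx, h0, add_zero]) hM3
  refine ⟨φ₁, φ₂, ?_, fun g => h₁ g _⟩
  intro a b
  obtain ⟨x, hx, rfl⟩ := exists_cl a
  obtain ⟨y, hy, rfl⟩ := exists_cl b
  have e := gbr_cl hx hy
  have e2 : φ₂ (gbr (cl 1 x hx) (cl 1 y hy)) = φ₂ (cl (1 + 1) ⁅x, y⁆ (comm_mem hx hy)) :=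
    congrArg φ₂ e
  rw [e2, h₁, h₁]
  exact (h₂ _ _).trans (hMc x y)

end Pool.Agent.H355.QP927
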