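import Pool.Agent.H927.QP.PS

/-!
# The Magnus expansion up to degree three and the group `PΣ_n`
-/

set_option autoImplicit false

noncomputable section

namespace Pool.Agent.H355.QP927

open Pool.Agent.H927.QP

/-- truncated power series in non-commuting variables with constant term `1` -/
@[ext] structure Mg (n : ℕ) where
  /-- degree one -/
  a : Fin n → ℤ
  /-- degree two -/
  b : Fin n → Fin n → ℤ
  /-- degree three -/
  c : Fin n → Fin n → Fin n → ℤ

namespace Mg

variable {n : ℕ}

instance : Mul (Mg n) := ⟨fun x y => ⟨fun p => x.a p + y.a p,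
  fun p q => x.b p q + y.b p q + x.a p * y.a q,
  fun p q r => x.c p q r + y.c p q r + x.a p * y.b q r + x.b p q * y.a r⟩⟩

instance : One (Mg n) := ⟨⟨fun _ => 0, fun _ _ => 0, fun _ _ _ => 0⟩⟩

instance : Inv (Mg n) := ⟨fun x => ⟨fun p => -x.a p,
  fun p q => -x.b p q + x.a p * x.a q,
  fun p q r => -x.c p q r + x.a p * x.b q r + x.b p q * x.a r - x.a p * x.a q * x.a r⟩⟩

lemma mul_a (x y : Mg n) (p : Fin n) : (x * y).a p = x.a p + y.a p := rfl
lemma mul_b (x y : Mg n) (p q : Fin n) :
    (x * y).b p q = x.b p q + y.b p q + x.a p * y.a q := rfl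
lemma mul_c (x y : Mg n) (p q r : Fin n) :
    (x * y).c p q r = x.c p q r + y.c p q r + x.a p * y.b q r + x.b p q * y.a r := rfl
lemma one_a (p : Fin n) : (1 : Mg n).a p = 0 := rfl
lemma one_b (p q : Fin n) : (1 : Mg n).b p q = 0 := rfl
lemma one_c (p q r : Fin n) : (1 : Mg n).c p q r = 0 := rfl
lemma inv_a (x : Mg n) (p : Fin n) : x⁻¹.a p = -x.a p := rfl
lemma inv_b (x : Mg n) (p q : Fin n) : x⁻¹.b p q = -x.b p q + x.a p * x.a q := rfl
lemma inv_c (x : Mg n) (p q r : Fin n) :
    x⁻¹.c p q r = -x.c p q r + x.a p * x.b q r + x.b p q * x.a r - x.a p * x.a q * x.a r := rfl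

lemma ext' {x y : Mg n} (h1 : ∀ p, x.a p = y.a p) (h2 : ∀ p q, x.b p q = y.b p q)
    (h3 : ∀ p q r, x.c p q r = y.c p q r) : x = y :=
  Mg.ext (funext h1) (funext fun p => funext (h2 p))
    (funext fun p => funext fun q => funext (h3 p q))

instance : Group (Mg n) := Group.ofLeftAxioms
  (fun x y z => by
    apply ext'
    · intro p
      simp only [mul_a]
      ring
    · intro p q
      simp only [mul_a, mul_b]
      ring
    · intro p q r
      simp only [mul_a, mul_b, mul_c]
      ring)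
  (fun x => by
    apply ext'
    · intro p
      simp only [mul_a, one_a]
      ring
    · intro p q
      simp only [mul_b, one_a, one_b]
      ring
    · intro p q r
      simp only [mul_c, one_a, one_b, one_c]
      ring)
  (fun x => by
    apply ext'
    · intro p
      simp only [mul_a, one_a, inv_a]
      ring
    · intro p q
      simp only [mul_b, one_b, inv_a, inv_b]
      ring
    · intro p q r
      simp only [mul_c, one_c, inv_a, inv_b, inv_c]
      ring)

end Mg

variable {n : ℕ}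

/-- the Magnus expansion -/
def mag : FreeGroup (Fin n) →* Mg n :=
  FreeGroup.lift fun i => ⟨fun p => if p = i then 1 else 0, fun _ _ => 0, fun _ _ _ => 0⟩

lemma mag_of (i : Fin n) : mag (FreeGroup.of i) =
    ⟨fun p => if p = i then 1 else 0, fun _ _ => 0, fun _ _ _ => 0⟩ := by
  unfold mag
  rw [FreeGroup.lift_apply_of]

lemma of_a (i p : Fin n) : (mag (FreeGroup.of i)).a p = if p = i then 1 else 0 := by rw [mag_of]
lemma of_b (i p q : Fin n) : (mag (FreeGroup.of i)).b p q = 0 := by rw [mag_of]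
lemma of_c (i p q r : Fin n) : (mag (FreeGroup.of i)).c p q r = 0 := by rw [mag_of]

/-- conjugates of generators -/
lemma conj_a (w : FreeGroup (Fin n)) (i p : Fin n) :
    (mag (w * FreeGroup.of i * w⁻¹)).a p = if p = i then 1 else 0 := by
  rw [map_mul, map_mul, map_inv, Mg.mul_a, Mg.mul_a, Mg.inv_a, of_a]
  ring

lemma conj_b (w : FreeGroup (Fin n)) (i p q : Fin n) :
    (mag (w * FreeGroup.of i * w⁻¹)).b p q =
      (mag w).a p * (if q = i then 1 else 0) - (if p = i then 1 else 0) * (mag w).a q := by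
  rw [map_mul, map_mul, map_inv]
  simp only [Mg.mul_a, Mg.mul_b, Mg.inv_a, Mg.inv_b, of_a, of_b]
  ring

lemma conj_c (w : FreeGroup (Fin n)) (i p q r : Fin n) :
    (mag (w * FreeGroup.of i * w⁻¹)).c p q r =
      (mag w).b p q * (if r = i then 1 else 0) -
      (mag w).a p * (if q = i then 1 else 0) * (mag w).a r +
      (if p = i then 1 else 0) * (-(mag w).b q r + (mag w).a q * (mag w).a r) := by
  rw [map_mul, map_mul, map_inv]
  simp only [Mg.mul_a, Mg.mul_b, Mg.mul_c, Mg.inv_a, Mg.inv_b, Mg.inv_c, of_a, of_b, of_c]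
  ring

/-- the numbers `a_ij(g)` -/
def av (g : PSig n) (i j : Fin n) : ℤ :=
  if i = j then 0 else (mag ((g : MulAut (FreeGroup (Fin n))) (FreeGroup.of i))).b j i

/-- the numbers `μ_{i;jk}(g)` -/
def mu (g : PSig n) (i j k : Fin n) : ℤ :=
  (mag ((g : MulAut (FreeGroup (Fin n))) (FreeGroup.of i))).c j k i

/-- the numbers `ν_ij(g)` -/
def nu (g : PSig n) (i j : Fin n) : ℤ :=
  (mag ((g : MulAut (FreeGroup (Fin n))) (FreeGroup.of i))).c j i i

lemma av_self (g : PSig n) (i : Fin n) : av g i i = 0 := by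
  unfold av
  rw [if_pos rfl]

lemma av_eq {g : PSig n} {i : Fin n} {w : FreeGroup (Fin n)}
    (h : (g : MulAut (FreeGroup (Fin n))) (FreeGroup.of i) = w * FreeGroup.of i * w⁻¹)
    {j : Fin n} (hj : j ≠ i) : av g i j = (mag w).a j := by
  unfold av
  rw [if_neg (Ne.symm hj), h, conj_b, if_pos rfl, if_neg hj]
  ring

lemma mu_eq {g : PSig n} {i : Fin n} {w : FreeGroup (Fin n)}
    (h : (g : MulAut (FreeGroup (Fin n))) (FreeGroup.of i) = w * FreeGroup.of i * w⁻¹)
    {j k : Fin n} (hj : j ≠ i) (hk : k ≠ i) : mu g i j k = (mag w).b j k := by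
  unfold mu
  rw [h, conj_c, if_pos rfl, if_neg hj, if_neg hk]
  ring

lemma nu_eq {g : PSig n} {i : Fin n} {w : FreeGroup (Fin n)}
    (h : (g : MulAut (FreeGroup (Fin n))) (FreeGroup.of i) = w * FreeGroup.of i * w⁻¹)
    {j : Fin n} (hj : j ≠ i) : nu g i j = (mag w).b j i - (mag w).a j * (mag w).a i := by
  unfold nu
  rw [h, conj_c, if_pos rfl, if_neg hj]
  ring

/-- the action on the coefficients of degree one -/
lemma act_a (g : PSig n) (u : FreeGroup (Fin n)) (p : Fin n) :
    (mag ((g : MulAut (FreeGroup (Fin n))) u)).a p = (mag u).a p := by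
  induction u using FreeGroup.induction_on with
  | C1 => rw [map_one]
  | of i =>
    obtain ⟨w, hw⟩ := g.2 i
    rw [hw, conj_a, of_a]
  | inv_of i hi => rw [map_inv, map_inv, map_inv, Mg.inv_a, Mg.inv_a, hi]
  | mul x y hx hy => rw [map_mul, map_mul, map_mul, Mg.mul_a, Mg.mul_a, hx, hy]

/-- the action on the coefficients of degree two -/
lemma act_b (g : PSig n) (u : FreeGroup (Fin n)) {p q : Fin n} (hpq : p ≠ q) :
    (mag ((g : MulAut (FreeGroup (Fin n))) u)).b p q =
      (mag u).b p q + (mag u).a q * av g q p - (mag u).a p * av g p q := by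
  induction u using FreeGroup.induction_on with
  | C1 =>
    rw [map_one, map_one, Mg.one_a, Mg.one_a, Mg.one_b]
    ring
  | of i =>
    obtain ⟨w, hw⟩ := g.2 i
    rw [hw, conj_b, of_a, of_a, of_b]
    by_cases h1 : q = i
    · subst h1
      rw [if_pos rfl, if_neg hpq, av_eq hw hpq]
      ring
    · rw [if_neg h1]
      by_cases h2 : p = i
      · subst h2
        rw [if_pos rfl, av_eq hw h1]
        ring
      · rw [if_neg h2]
        ring
  | inv_of i hi =>
    rw [map_inv, map_inv, map_inv, Mg.inv_b, Mg.inv_b, Mg.inv_a, Mg.inv_a, hi, act_a, act_a]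
    ring
  | mul x y hx hy =>
    rw [map_mul, map_mul, map_mul, Mg.mul_b, Mg.mul_b, Mg.mul_a, Mg.mul_a, hx, hy, act_a, act_a]
    ring

/-- composition -/
lemma comp_conj (g g' : PSig n) (i : Fin n) : ∃ w w' : FreeGroup (Fin n),
    (g : MulAut (FreeGroup (Fin n))) (FreeGroup.of i) = w * FreeGroup.of i * w⁻¹ ∧
    (g' : MulAut (FreeGroup (Fin n))) (FreeGroup.of i) = w' * FreeGroup.of i * w'⁻¹ ∧
    ((g * g' : PSig n) : MulAut (FreeGroup (Fin n))) (FreeGroup.of i) =
      ((g : MulAut (FreeGroup (Fin n))) w' * w) * FreeGroup.of i *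
        ((g : MulAut (FreeGroup (Fin n))) w' * w)⁻¹ := by
  obtain ⟨w, hw⟩ := g.2 i
  obtain ⟨w', hw'⟩ := g'.2 i
  refine ⟨w, w', hw, hw', ?_⟩
  rw [Subgroup.coe_mul, MulAut.mul_apply, hw', map_mul, map_mul, map_inv, hw]
  group

lemma av_mul (g g' : PSig n) (i j : Fin n) : av (g * g') i j = av g i j + av g' i j := by
  by_cases h : i = j
  · subst h
    rw [av_self, av_self, av_self, add_zero]
  · obtain ⟨w, w', hw, hw', hc⟩ := comp_conj g g' i
    have hj : j ≠ i := Ne.symm h
    rw [av_eq hc hj, av_eq hw hj, av_eq hw' hj, map_mul, Mg.mul_a, act_a]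
    ring

lemma mu_mul (g g' : PSig n) {i j k : Fin n} (hj : j ≠ i) (hk : k ≠ i) (hjk : j ≠ k) :
    mu (g * g') i j k = mu g i j k + mu g' i j k + (av g' i k * av g k j - av g' i j * av g j k
      + av g' i j * av g i k) := by
  obtain ⟨w, w', hw, hw', hc⟩ := comp_conj g g' i
  rw [mu_eq hc hj hk, mu_eq hw hj hk, mu_eq hw' hj hk, map_mul, Mg.mul_b, act_b g w' hjk, act_a,
    av_eq hw' hj, av_eq hw' hk, av_eq hw hk]
  ring

lemma nu_mul (g g' : PSig n) {i j : Fin n} (hj : j ≠ i) :
    nu (g * g') i j = nu g i j + nu g' i j - av g' i j * av g j i := by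
  obtain ⟨w, w', hw, hw', hc⟩ := comp_conj g g' i
  rw [nu_eq hc hj, nu_eq hw hj, nu_eq hw' hj, map_mul, Mg.mul_b, Mg.mul_a, Mg.mul_a,
    act_b g w' hj, act_a, act_a, av_eq hw' hj, av_eq hw hj]
  ring

/-- the values on the generators -/
lemma av_chi {k l : Fin n} (h : k ≠ l) (i j : Fin n) :
    av (chi k l h) i j = if i = k ∧ j = l then 1 else 0 := by
  by_cases hij : i = j
  · subst hij
    rw [av_self, if_neg]
    rintro ⟨rfl, h2⟩
    exact h h2
  · have hj : j ≠ i := Ne.symm hij
    by_cases hi : i = k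
    · subst hi
      rw [av_eq (chi_same h) hj, of_a]
      simp
    · have e : (chi k l h : MulAut (FreeGroup (Fin n))) (FreeGroup.of i) =
          1 * FreeGroup.of i * (1 : FreeGroup (Fin n))⁻¹ := by
        rw [chi_ne h hi]
        group
      rw [av_eq e hj, map_one, Mg.one_a, if_neg]
      rintro ⟨h1, -⟩
      exact hi h1

end Pool.Agent.H355.QP927
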