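import Mathlib

/-!
# Sums of brackets under the quadratic relations of McCool
-/

set_option autoImplicit false

noncomputable section

namespace Pool.Agent.H355.QP927

open Finset

variable {n : ℕ} {N : Type} [LieRing N]

/-- the elements with zero diagonal -/
def ph (Φ : Fin n → Fin n → N) (i j : Fin n) : N := if i = j then 0 else Φ i j

/-- the bracket `T_{i;jk}` -/
def tt (Φ : Fin n → Fin n → N) (i j k : Fin n) : N := ⁅ph Φ i j, ph Φ i k⁆

/-- the bracket `S_ij` -/
def ss (Φ : Fin n → Fin n → N) (i j : Fin n) : N := ⁅ph Φ i j, ph Φ j i⁆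

variable (Φ : Fin n → Fin n → N)

lemma ph_self (i : Fin n) : ph Φ i i = 0 := if_pos rfl

lemma ph_ne {i j : Fin n} (h : i ≠ j) : ph Φ i j = Φ i j := if_neg h

lemma tt_left (i k : Fin n) : tt Φ i i k = 0 := by
  unfold tt
  rw [ph_self, zero_lie]

lemma tt_right (i j : Fin n) : tt Φ i j i = 0 := by
  unfold tt
  rw [ph_self, lie_zero]

lemma tt_same (i j : Fin n) : tt Φ i j j = 0 := lie_self _

lemma tt_skew (i j k : Fin n) : tt Φ i k j = -tt Φ i j k := by
  unfold tt
  rw [lie_skew]

lemma ss_self (i : Fin n) : ss Φ i i = 0 := lie_self _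

lemma ss_skew (i j : Fin n) : ss Φ j i = -ss Φ i j := by
  unfold ss
  rw [lie_skew]

variable {Φ}

/-- all brackets -/
lemma brk (h1 : ∀ i j k : Fin n, i ≠ j → i ≠ k → j ≠ k → ⁅Φ i j, Φ k j⁆ = 0)
    (h2 : ∀ i j k l : Fin n, i ≠ j → i ≠ k → i ≠ l → j ≠ k → j ≠ l → k ≠ l → ⁅Φ i j, Φ k l⁆ = 0)
    (h3 : ∀ i j k : Fin n, i ≠ j → i ≠ k → j ≠ k → ⁅Φ i j + Φ k j, Φ i k⁆ = 0)
    (i j k l : Fin n) : ⁅ph Φ i j, ph Φ k l⁆ =
      (if k = i then tt Φ i j l else 0) + (if k = j then tt Φ i l j else 0) -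
      (if l = i then tt Φ k j i else 0) + (if k = j then (if l = i then ss Φ i j else 0) else 0) := by
  -- the rule for `⁅Φ_ab, Φ_bc⁆`
  have h3' : ∀ a b c : Fin n, a ≠ b → a ≠ c → b ≠ c → ⁅Φ a b, Φ b c⁆ = tt Φ a c b := by
    intro a b c hab hac hbc
    have h := h3 a c b hac hab (Ne.symm hbc)
    rw [add_lie, add_eq_zero_iff_eq_neg] at h
    unfold tt
    rw [ph_ne Φ hac, ph_ne Φ hab, h, lie_skew]
  by_cases hij : i = j
  · subst hij
    rw [ph_self, zero_lie]
    by_cases hk : k = i
    · subst hk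
      by_cases hl : l = k
      · subst hl
        simp [tt_left, ss_self]
      · simp [tt_left, tt_right, hl]
    · simp only [hk, if_false, add_zero, tt_same, ite_self, sub_zero]
  · by_cases hkl : k = l
    · subst hkl
      rw [ph_self, lie_zero]
      by_cases hk : k = i
      · subst hk
        simp [tt_right, hij]
      · by_cases hk2 : k = j
        · subst hk2
          simp [hk, tt_same]
        · simp [hk, hk2]
    · by_cases hki : k = i
      · subst hki
        rw [if_pos rfl, if_neg hij, if_neg (Ne.symm hkl), if_neg hij]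
        simp [tt]
      · by_cases hkj : k = j
        · subst hkj
          by_cases hli : l = i
          · subst hli
            rw [if_neg hki, if_pos rfl, if_pos rfl, if_pos rfl, if_pos rfl, tt_left, tt_left]
            simp [ss]
          · rw [if_neg hki, if_pos rfl, if_neg hli, if_pos rfl, if_neg hli, ph_ne Φ hij,
              ph_ne Φ hkl, h3' i k l hij (Ne.symm hli) hkl]
            simp
        · rw [if_neg hki, if_neg hkj, if_neg hkj]
          by_cases hli : l = i
          · subst hli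
            rw [if_pos rfl, ph_ne Φ hij, ph_ne Φ hkl, ← lie_skew, h3' k l j hkl hkj hij]
            simp
          · rw [if_neg hli]
            by_cases hlj : l = j
            · subst hlj
              rw [ph_ne Φ hij, ph_ne Φ hkl, h1 i l k hij (Ne.symm hki) (Ne.symm hkl)]
              simp
            · rw [ph_ne Φ hij, ph_ne Φ hkl,
                h2 i j k l hij (Ne.symm hki) (Ne.symm hli) (Ne.symm hkj) (Ne.symm hlj) hkl]
              simp

variable (Φ)

/-- the additive map from matrices -/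
def PP (a : Fin n → Fin n → ℤ) : N := ∑ i, ∑ j, a i j • ph Φ i j

lemma PP_add (a b : Fin n → Fin n → ℤ) : PP Φ (a + b) = PP Φ a + PP Φ b := by
  unfold PP
  rw [← sum_add_distrib]
  refine sum_congr rfl fun i _ => ?_
  rw [← sum_add_distrib]
  refine sum_congr rfl fun j _ => ?_
  rw [Pi.add_apply, Pi.add_apply, add_smul]

/-- the sum over all quadruples of indices -/
lemma PP_lie (a b : Fin n → Fin n → ℤ) :
    ⁅PP Φ a, PP Φ b⁆ = ∑ i, ∑ j, ∑ k, ∑ l, (a i j * b k l) • ⁅ph Φ i j, ph Φ k l⁆ := by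
  unfold PP
  rw [sum_lie]
  refine sum_congr rfl fun i _ => ?_
  rw [sum_lie]
  refine sum_congr rfl fun j _ => ?_
  rw [lie_sum]
  refine sum_congr rfl fun k _ => ?_
  rw [lie_sum]
  refine sum_congr rfl fun l _ => ?_
  rw [zsmul_lie, lie_zsmul, smul_smul]

variable {Φ}

/-- the bracket of two combinations -/
lemma PP_lie' (h1 : ∀ i j k : Fin n, i ≠ j → i ≠ k → j ≠ k → ⁅Φ i j, Φ k j⁆ = 0)
    (h2 : ∀ i j k l : Fin n, i ≠ j → i ≠ k → i ≠ l → j ≠ k → j ≠ l → k ≠ l → ⁅Φ i j, Φ k l⁆ = 0)
    (h3 : ∀ i j k : Fin n, i ≠ j → i ≠ k → j ≠ k → ⁅Φ i j + Φ k j, Φ i k⁆ = 0)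
    (a b : Fin n → Fin n → ℤ) :
    ⁅PP Φ a, PP Φ b⁆ = (∑ i, ∑ j, ∑ k, (a i j * b i k + a i k * b k j - a k j * b i k) • tt Φ i j k)
      + ∑ i, ∑ j, (a i j * b j i) • ss Φ i j := by
  have e1 : (∑ i, ∑ j, ∑ k, ∑ l, (a i j * b k l) • (if k = i then tt Φ i j l else 0)) =
      ∑ i, ∑ j, ∑ k, (a i j * b i k) • tt Φ i j k := by
    refine sum_congr rfl fun i _ => sum_congr rfl fun j _ => ?_
    rw [sum_comm]
    refine sum_congr rfl fun l _ => ?_
    rw [sum_eq_single i]
    · rw [if_pos rfl]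
    · intro k _ hk
      rw [if_neg hk, smul_zero]
    · intro h
      exact absurd (mem_univ i) h
  have e2 : (∑ i, ∑ j, ∑ k, ∑ l, (a i j * b k l) • (if k = j then tt Φ i l j else 0)) =
      ∑ i, ∑ j, ∑ k, (a i k * b k j) • tt Φ i j k := by
    refine sum_congr rfl fun i _ => ?_
    rw [sum_comm]
    have : ∀ j, (∑ k, ∑ l, (a i k * b j l) • (if j = k then tt Φ i l k else 0)) =
        ∑ l, (a i j * b j l) • tt Φ i l j := by
      intro j
      rw [sum_comm]
      refine sum_congr rfl fun l _ => ?_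
      rw [sum_eq_single j]
      · rw [if_pos rfl]
      · intro k _ hk
        rw [if_neg (Ne.symm hk), smul_zero]
      · intro h
        exact absurd (mem_univ j) h
    rw [sum_congr rfl fun j _ => this j, sum_comm]
  have e3 : (∑ i, ∑ j, ∑ k, ∑ l, (a i j * b k l) • (if l = i then tt Φ k j i else 0)) =
      ∑ i, ∑ j, ∑ k, (a k j * b i k) • tt Φ i j k := by
    have h : ∀ i j, (∑ k, ∑ l, (a i j * b k l) • (if l = i then tt Φ k j i else 0)) =
        ∑ k, (a i j * b k i) • tt Φ k j i := by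
      intro i j
      refine sum_congr rfl fun k _ => ?_
      rw [sum_eq_single i]
      · rw [if_pos rfl]
      · intro l _ hl
        rw [if_neg hl, smul_zero]
      · intro h
        exact absurd (mem_univ i) h
    rw [sum_congr rfl fun i _ => sum_congr rfl fun j _ => h i j]
    rw [sum_comm]
    have h' : ∀ j, (∑ i, ∑ k, (a i j * b k i) • tt Φ k j i) =
        ∑ k, ∑ i, (a i j * b k i) • tt Φ k j i := fun j => sum_comm
    rw [sum_congr rfl fun j _ => h' j, sum_comm]
  have e4 : (∑ i, ∑ j, ∑ k, ∑ l, (a i j * b k l) •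
      (if k = j then (if l = i then ss Φ i j else 0) else 0)) =
      ∑ i, ∑ j, (a i j * b j i) • ss Φ i j := by
    refine sum_congr rfl fun i _ => sum_congr rfl fun j _ => ?_
    rw [sum_eq_single j]
    · rw [sum_eq_single i]
      · rw [if_pos rfl, if_pos rfl]
      · intro l _ hl
        rw [if_pos rfl, if_neg hl, smul_zero]
      · intro h
        exact absurd (mem_univ i) h
    · intro k _ hk
      refine sum_eq_zero fun l _ => ?_
      rw [if_neg hk, smul_zero]
    · intro h
      exact absurd (mem_univ j) h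
  rw [PP_lie]
  have e0 : ∀ i j k l, (a i j * b k l) • ⁅ph Φ i j, ph Φ k l⁆ =
      (a i j * b k l) • (if k = i then tt Φ i j l else 0) +
      (a i j * b k l) • (if k = j then tt Φ i l j else 0) -
      (a i j * b k l) • (if l = i then tt Φ k j i else 0) +
      (a i j * b k l) • (if k = j then (if l = i then ss Φ i j else 0) else 0) := by
    intro i j k l
    rw [brk h1 h2 h3, smul_add, smul_sub, smul_add]
  simp_rw [e0, sum_add_distrib, sum_sub_distrib, sum_add_distrib]
  rw [e1, e2, e3, e4]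
  simp_rw [sub_smul, add_smul, sum_sub_distrib, sum_add_distrib]

/-- folding of a double sum of skew elements -/
lemma fold_sum (X : Fin n → Fin n → ℤ) (t : Fin n → Fin n → N) (h0 : ∀ j, t j j = 0)
    (hs : ∀ j k, t k j = -t j k) :
    (∑ j, ∑ k, X j k • t j k) = ∑ j, ∑ k, (if j < k then X j k - X k j else 0) • t j k := by
  have e : ∀ j k, X j k • t j k =
      (if j < k then X j k else 0) • t j k + (if k < j then X j k else 0) • t j k := by
    intro j k
    rcases lt_trichotomy j k with h | h | h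
    · rw [if_pos h, if_neg (asymm h), zero_smul, add_zero]
    · subst h
      rw [h0]
      simp
    · rw [if_pos h, if_neg (asymm h), zero_smul, zero_add]
  simp_rw [e, sum_add_distrib]
  have e2 : (∑ j, ∑ k, (if k < j then X j k else 0) • t j k) =
      ∑ j, ∑ k, (if j < k then -X k j else 0) • t j k := by
    rw [sum_comm]
    refine sum_congr rfl fun k _ => sum_congr rfl fun j _ => ?_
    rw [hs k j]
    by_cases h : k < j
    · rw [if_pos h, if_pos h, smul_neg, neg_smul]
    · rw [if_neg h, if_neg h, zero_smul, zero_smul]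
  rw [e2, ← sum_add_distrib]
  refine sum_congr rfl fun j _ => ?_
  rw [← sum_add_distrib]
  refine sum_congr rfl fun k _ => ?_
  rw [← add_smul]
  by_cases h : j < k
  · rw [if_pos h, if_pos h, if_pos h, sub_eq_add_neg]
  · rw [if_neg h, if_neg h, if_neg h, add_zero]

/-- the cocycle -/
def CC (Φ : Fin n → Fin n → N) (a b : Fin n → Fin n → ℤ) : N :=
  (∑ i, ∑ j, ∑ k, (if j < k then -(b i k * a k j - b i j * a j k + b i j * a i k) else 0) •
    tt Φ i j k) + ∑ i, ∑ j, (if i < j then -(b i j * a j i) else 0) • ss Φ i j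

lemma CC_zero (b : Fin n → Fin n → ℤ) : CC Φ 0 b = 0 := by
  unfold CC
  simp

/-- the commutator of the cocycle -/
lemma CC_comm (h1 : ∀ i j k : Fin n, i ≠ j → i ≠ k → j ≠ k → ⁅Φ i j, Φ k j⁆ = 0)
    (h2 : ∀ i j k l : Fin n, i ≠ j → i ≠ k → i ≠ l → j ≠ k → j ≠ l → k ≠ l → ⁅Φ i j, Φ k l⁆ = 0)
    (h3 : ∀ i j k : Fin n, i ≠ j → i ≠ k → j ≠ k → ⁅Φ i j + Φ k j, Φ i k⁆ = 0)
    (a b : Fin n → Fin n → ℤ) :
    CC Φ a b - CC Φ b a = ⁅PP Φ a, PP Φ b⁆ := by
  rw [PP_lie' h1 h2 h3]
  have f1 : ∀ i, (∑ j, ∑ k, (a i j * b i k + a i k * b k j - a k j * b i k) • tt Φ i j k) =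
      ∑ j, ∑ k, (if j < k then (a i j * b i k + a i k * b k j - a k j * b i k) -
        (a i k * b i j + a i j * b j k - a j k * b i j) else 0) • tt Φ i j k := fun i =>
    fold_sum (fun j k => a i j * b i k + a i k * b k j - a k j * b i k) (fun j k => tt Φ i j k)
      (fun j => tt_same Φ i j) (fun j k => tt_skew Φ i j k)
  have f2 : (∑ i, ∑ j, (a i j * b j i) • ss Φ i j) =
      ∑ i, ∑ j, (if i < j then a i j * b j i - a j i * b i j else 0) • ss Φ i j :=
    fold_sum (fun i j => a i j * b j i) (fun i j => ss Φ i j) (fun j => ss_self Φ j)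
      (fun j k => ss_skew Φ j k)
  rw [sum_congr rfl fun i _ => f1 i, f2]
  unfold CC
  rw [add_sub_add_comm]
  congr 1
  · rw [← sum_sub_distrib]
    refine sum_congr rfl fun i _ => ?_
    rw [← sum_sub_distrib]
    refine sum_congr rfl fun j _ => ?_
    rw [← sum_sub_distrib]
    refine sum_congr rfl fun k _ => ?_
    rw [← sub_smul]
    congr 1
    by_cases h : j < k
    · rw [if_pos h, if_pos h, if_pos h]
      ring
    · rw [if_neg h, if_neg h, if_neg h]
      ring
  · rw [← sum_sub_distrib]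
    refine sum_congr rfl fun i _ => ?_
    rw [← sum_sub_distrib]
    refine sum_congr rfl fun j _ => ?_
    rw [← sub_smul]
    congr 1
    by_cases h : i < j
    · rw [if_pos h, if_pos h, if_pos h]
      ring
    · rw [if_neg h, if_neg h, if_neg h]
      ring

end Pool.Agent.H355.QP927
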