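import Pool.Agent.H927.QP.St
import Pool.Agent.H355.QP927.Desc
import Pool.Agent.H355.QP927.Magnus
import Pool.Agent.H355.QP927.Sums

/-!
# The relations of `PΣ_n` in degree two
-/

set_option autoImplicit false

open scoped TensorProduct commutatorElement

noncomputable section

namespace Pool.Agent.H355.QP927

open Pool.Agent.H927.QP Finset
open Pool.Agent.H297.QL (Gr gam cl gbr comp hc LV inc lift)

variable {n : ℕ} {N : Type} [LieRing N]

/-- the quadratic map -/
def MM (Φ : Fin n → Fin n → N) (g : PSig n) : N :=
  (∑ i, ∑ j, ∑ k, (if j < k then -mu g i j k else 0) • tt Φ i j k) +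
    ∑ i, ∑ j, (if i < j then nu g i j else 0) • ss Φ i j

lemma MM_mul (Φ : Fin n → Fin n → N) (g g' : PSig n) :
    MM Φ (g * g') = MM Φ g + MM Φ g' + CC Φ (av g) (av g') := by
  have e1 : ∀ i j k, (if j < k then -mu (g * g') i j k else 0) • tt Φ i j k =
      (if j < k then -mu g i j k else 0) • tt Φ i j k +
      (if j < k then -mu g' i j k else 0) • tt Φ i j k +
      (if j < k then -(av g' i k * av g k j - av g' i j * av g j k + av g' i j * av g i k)
        else 0) • tt Φ i j k := by
    intro i j k
    by_cases hjk : j < k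
    · by_cases hj : j = i
      · subst hj
        rw [tt_left]
        simp
      · by_cases hk : k = i
        · subst hk
          rw [tt_right]
          simp
        · rw [if_pos hjk, if_pos hjk, if_pos hjk, if_pos hjk, mu_mul g g' hj hk hjk.ne,
            ← add_smul, ← add_smul]
          congr 1
          ring
    · rw [if_neg hjk, if_neg hjk, if_neg hjk, if_neg hjk]
      simp
  have e2 : ∀ i j, (if i < j then nu (g * g') i j else 0) • ss Φ i j =
      (if i < j then nu g i j else 0) • ss Φ i j +
      (if i < j then nu g' i j else 0) • ss Φ i j +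
      (if i < j then -(av g' i j * av g j i) else 0) • ss Φ i j := by
    intro i j
    by_cases hij : i < j
    · rw [if_pos hij, if_pos hij, if_pos hij, if_pos hij, nu_mul g g' hij.ne',
        ← add_smul, ← add_smul]
      congr 1
    · rw [if_neg hij, if_neg hij, if_neg hij, if_neg hij]
      simp
  unfold MM CC
  simp_rw [e1, e2, sum_add_distrib]
  abel

/-- the combination given by a generator -/
lemma PP_chi (Φ : Fin n → Fin n → N) {k l : Fin n} (h : k ≠ l) :
    PP Φ (av (chi k l h)) = Φ k l := by
  unfold PP
  rw [sum_eq_single k, sum_eq_single l]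
  · rw [av_chi, if_pos ⟨rfl, rfl⟩, one_smul, ph_ne Φ h]
  · intro j _ hj
    rw [av_chi, if_neg (fun h' => hj h'.2), zero_smul]
  · intro h'
    exact absurd (mem_univ l) h'
  · intro i _ hi
    refine sum_eq_zero fun j _ => ?_
    rw [av_chi, if_neg (fun h' => hi h'.1), zero_smul]
  · intro h'
    exact absurd (mem_univ k) h'

/-- **The relations of McCool in degree two.** -/
theorem phi : S_phi := by
  intro n N _ Φ h1 h2 h3
  obtain ⟨φ₁, φ₂, hb, hc⟩ := descend (G := PSig n) (V := Fin n → Fin n → ℤ) (N := N)
    (fun g => av g) (MM Φ) (CC Φ) (PP Φ) (PP_add Φ)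
    (fun g g' => funext fun i => funext fun j => av_mul g g' i j)
    (fun g g' => MM_mul Φ g g') (fun v => CC_zero v)
    (fun g g' => CC_comm h1 h2 h3 (av g) (av g'))
  exact ⟨φ₁, φ₂, hb, fun i j h => (hc _).trans (PP_chi Φ h)⟩

end Pool.Agent.H355.QP927

namespace Pool.Agent.H927.QP.Part_phi

/-- see above -/
theorem phi : S_phi := Pool.Agent.H355.QP927.phi

end Pool.Agent.H927.QP.Part_phi
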